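import Pool.Agent.L5helper14.MetK.Two

set_option autoImplicit false

/-!
Functions at consecutive primes, for sequences of integers of any sign.
-/

namespace Pool.Agent.L5helper14.MetK

open Finset Filter
open Pool.Agent.TH869.SQ (per_mod ind ind1 mean pr lam lam_nonneg pr_prime)
open Pool.Agent.N193.PS (PED consecutive2)

lemma per_int (f : ℤ → ℝ) (p : ℕ) (h : ∀ z, f (z + p) = f z) (z c : ℤ) : f (z + p * c) = f z := by
  have h1 : ∀ (n : ℕ) (z : ℤ), f (z + p * n) = f z := by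
    intro n
    induction n with
    | zero => intro z; simp
    | succ n ih =>
      intro z
      have : z + (p : ℤ) * ((n + 1 : ℕ) : ℤ) = z + p * n + p := by push_cast; ring
      rw [this, h, ih]
  obtain ⟨n, hn | hn⟩ := Int.eq_nat_or_neg c
  · rw [hn]
    exact h1 n z
  · have h2 := h1 n (z + p * c)
    have : z + (p : ℤ) * c + p * n = z := by rw [hn]; ring
    rw [this] at h2
    exact h2.symm

open Classical in
theorem consec {w : ℕ → ℤ} {ρ σ C₀ : ℝ} (hw : PED (hat w) ρ σ C₀) (s : ℕ) (hs : 1 ≤ s) (δ : ℝ) (hδ : 0 < δ) :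
    ∃ κ C : ℝ, 0 < κ ∧ κ ≤ 1 ∧ 1 ≤ C ∧ ∀ x : ℕ → ℤ → ℝ, (∀ (p : ℕ) (z : ℤ), x p (z + p) = x p z) →
      ∀ N : ℕ, 1 ≤ N → (((Icc 1 N).filter (fun n : ℕ => ¬ ∀ K : ℕ, (K : ℝ) ≤ (N : ℝ) ^ κ →
          ∀ I : Fin s → Set ℝ, (∀ i, (I i).OrdConnected) →
          |∑ k ∈ range K, (ind I (fun i => x (pr (k + i)) (w n)) -
            ∏ i : Fin s, mean (pr (k + i)) (fun t => ind1 (I i) (x (pr (k + i)) (t : ℤ))))| ≤
            C * lam δ N K)).card : ℝ) ≤ C * (N : ℝ) ^ (1 - κ) := by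
  obtain ⟨κ₁, C₁, h1, h2, h3, H⟩ := consecutive2 hw s hs δ hδ
  obtain ⟨N₁, hN₁⟩ : ∃ N₁ : ℕ, N₁ = (4 * s ^ 2) ^ 4 := ⟨_, rfl⟩
  obtain ⟨κ, hκ⟩ : ∃ κ, κ = min κ₁ (1 / 8) := ⟨_, rfl⟩
  have hκ0 : 0 < κ := by rw [hκ]; positivity
  have hκ1 : κ ≤ κ₁ := by rw [hκ]; exact min_le_left _ _
  have hκ2 : κ ≤ 1 / 8 := by rw [hκ]; exact min_le_right _ _
  have hN₁0 : (0 : ℝ) ≤ N₁ := Nat.cast_nonneg _
  refine ⟨κ, 1 + C₁ + N₁, hκ0, by linarith, by linarith, fun x hx N hN => ?_⟩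
  have hNr : (1 : ℝ) ≤ N := by exact_mod_cast hN
  have hP : 1 ≤ (N : ℝ) ^ (1 - κ) := Real.one_le_rpow hNr (by linarith)
  by_cases hbig : N ≤ N₁
  · have h4 : (((Icc 1 N).filter (fun n : ℕ => ¬ ∀ K : ℕ, (K : ℝ) ≤ (N : ℝ) ^ κ →
          ∀ I : Fin s → Set ℝ, (∀ i, (I i).OrdConnected) →
          |∑ k ∈ range K, (ind I (fun i => x (pr (k + i)) (w n)) -
            ∏ i : Fin s, mean (pr (k + i)) (fun t => ind1 (I i) (x (pr (k + i)) (t : ℤ))))| ≤
            (1 + C₁ + N₁) * lam δ N K)).card : ℝ) ≤ N₁ := by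
      have : ((Icc 1 N).filter (fun n : ℕ => ¬ ∀ K : ℕ, (K : ℝ) ≤ (N : ℝ) ^ κ →
          ∀ I : Fin s → Set ℝ, (∀ i, (I i).OrdConnected) →
          |∑ k ∈ range K, (ind I (fun i => x (pr (k + i)) (w n)) -
            ∏ i : Fin s, mean (pr (k + i)) (fun t => ind1 (I i) (x (pr (k + i)) (t : ℤ))))| ≤
            (1 + C₁ + N₁) * lam δ N K)).card ≤ N₁ := by
        refine (card_filter_le _ _).trans ?_
        rw [Nat.card_Icc]
        omega
      exact_mod_cast this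
    refine h4.trans ?_
    nlinarith
  push Not at hbig
  obtain ⟨E, hE1, hE2⟩ := H (fun p m => x p (m : ℤ)) (by
    intro p n
    push_cast
    exact hx p n) N hN
  have hsub : (Icc 1 N).filter (fun n : ℕ => ¬ ∀ K : ℕ, (K : ℝ) ≤ (N : ℝ) ^ κ →
          ∀ I : Fin s → Set ℝ, (∀ i, (I i).OrdConnected) →
          |∑ k ∈ range K, (ind I (fun i => x (pr (k + i)) (w n)) -
            ∏ i : Fin s, mean (pr (k + i)) (fun t => ind1 (I i) (x (pr (k + i)) (t : ℤ))))| ≤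
            (1 + C₁ + N₁) * lam δ N K) ⊆ Icc 1 (Nat.sqrt N) ∪ E := by
    intro n hn
    rw [mem_filter, mem_Icc] at hn
    rw [mem_union, mem_Icc]
    by_contra hcon
    push Not at hcon
    obtain ⟨hc1, hc2⟩ := hcon
    have hn1 := hc1 hn.1.1
    apply hn.2
    intro K hK I hI
    have h4 := hE2 n hn.1.2 hc2 K (hK.trans (Real.rpow_le_rpow_of_exponent_le hNr hκ1)) I hI
    have hK8 : K ^ 8 ≤ N := by
      have h5 : (K : ℝ) ^ 8 ≤ N := by
        calc (K : ℝ) ^ 8 ≤ ((N : ℝ) ^ (1 / 8 : ℝ)) ^ 8 :=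
              pow_le_pow_left₀ (Nat.cast_nonneg _) (hK.trans (Real.rpow_le_rpow_of_exponent_le hNr hκ2)) 8
          _ = N := by
              rw [← Real.rpow_natCast, ← Real.rpow_mul (by linarith)]
              norm_num
      exact_mod_cast h5
    have e : ∑ k ∈ range K, (ind I (fun i => x (pr (k + i)) (w n)) -
            ∏ i : Fin s, mean (pr (k + i)) (fun t => ind1 (I i) (x (pr (k + i)) (t : ℤ)))) =
        ∑ k ∈ range K, (ind I (fun i => x (pr (k + i)) ((hat w n : ℕ) : ℤ)) -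
            ∏ i : Fin s, mean (pr (k + i)) (fun t => ind1 (I i) (x (pr (k + i)) (t : ℤ)))) := by
      refine sum_congr rfl fun k hk => ?_
      rw [mem_range] at hk
      congr 2
      funext i
      have hp1 : pr (k + i) ≤ 4 * s ^ 2 * K ^ 2 := by
        refine (Pool.Agent.TH862.EA.nth_prime_le (k + i)).trans ?_
        have h5 : k + (i : ℕ) + 1 ≤ s * K := by
          have := i.isLt
          nlinarith
        calc 4 * (k + (i : ℕ) + 1) ^ 2 ≤ 4 * (s * K) ^ 2 := Nat.mul_le_mul_left 4 (Nat.pow_le_pow_left h5 2)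
          _ = 4 * s ^ 2 * K ^ 2 := by ring
      have hp2 : pr (k + i) ^ 4 ≤ N ^ 2 := by
        calc pr (k + i) ^ 4 ≤ (4 * s ^ 2 * K ^ 2) ^ 4 := Nat.pow_le_pow_left hp1 4
          _ = (4 * s ^ 2) ^ 4 * K ^ 8 := by ring
          _ ≤ N * N := Nat.mul_le_mul (by omega) hK8
          _ = N ^ 2 := by ring
      have hp3 : pr (k + i) ^ 2 ≤ N := by
        have h5 : (pr (k + i) ^ 2) ^ 2 ≤ N ^ 2 := by rw [← pow_mul]; exact hp2
        exact (Nat.pow_le_pow_iff_left (by norm_num)).1 h5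
      have hp4 : pr (k + i) ≤ n := by
        have h5 : pr (k + i) ≤ Nat.sqrt N := Nat.le_sqrt'.2 hp3
        omega
      have hp5 : ((pr (k + i) : ℕ) : ℤ) ∣ (n.factorial : ℤ) := by
        exact_mod_cast Nat.dvd_factorial (pr_prime _).pos hp4
      obtain ⟨c, hc⟩ := hp5
      rw [hat_cast, hc, show w n + |w n| * ((pr (k + i) : ℤ) * c) = w n + (pr (k + i) : ℤ) * (|w n| * c) by ring]
      exact (per_int (x (pr (k + i))) (pr (k + i)) (hx _) (w n) _).symm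
    rw [e]
    refine h4.trans ?_
    apply mul_le_mul_of_nonneg_right _ (lam_nonneg δ N K)
    linarith
  have h5 : (((Icc 1 N).filter (fun n : ℕ => ¬ ∀ K : ℕ, (K : ℝ) ≤ (N : ℝ) ^ κ →
          ∀ I : Fin s → Set ℝ, (∀ i, (I i).OrdConnected) →
          |∑ k ∈ range K, (ind I (fun i => x (pr (k + i)) (w n)) -
            ∏ i : Fin s, mean (pr (k + i)) (fun t => ind1 (I i) (x (pr (k + i)) (t : ℤ))))| ≤
            (1 + C₁ + N₁) * lam δ N K)).card : ℝ) ≤ Nat.sqrt N + E.card := by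
    have := (card_le_card hsub).trans (card_union_le _ _)
    rw [Nat.card_Icc, Nat.add_sub_cancel] at this
    exact_mod_cast this
  refine h5.trans ?_
  have h6 : (Nat.sqrt N : ℝ) ≤ (N : ℝ) ^ (1 - κ) := by
    calc (Nat.sqrt N : ℝ) ≤ √(N : ℝ) := Real.nat_sqrt_le_real_sqrt
      _ = (N : ℝ) ^ (1 / 2 : ℝ) := Real.sqrt_eq_rpow _
      _ ≤ _ := Real.rpow_le_rpow_of_exponent_le hNr (by linarith)
  have h7 : (E.card : ℝ) ≤ C₁ * (N : ℝ) ^ (1 - κ) := by
    refine hE1.trans ?_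
    apply mul_le_mul_of_nonneg_left _ (by linarith)
    exact Real.rpow_le_rpow_of_exponent_le hNr (by linarith)
  nlinarith

end Pool.Agent.L5helper14.MetK
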