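import Pool.Agent.L5helper14.MetK.Cns
import Pool.Agent.Results.MP_6ea630_nt.NonIntegralOrderValues

set_option autoImplicit false

/-!
The angles of Kloosterman sums at consecutive primes, for sequences with a power-saving distribution in residue classes.
The derivation of the signs follows `Pool.Agent.Results.MP_6ea630_nt.NonIntegralOrderValues`.
-/

namespace Pool.Agent.L5helper14.MetK

open Finset Filter Polynomial
open Pool.Agent.N193.PS (PED)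
open Pool.Agent.Results.MP_6ea630_nt.NonIntegralOrderValues

open Classical in
/-- boxes -/
def BoxLaw (s : ℕ) (w : ℕ → ℤ) : Prop :=
  ∀ δ : ℝ, 0 < δ → ∃ κ C : ℝ, 0 < κ ∧ κ ≤ 1 ∧ 1 ≤ C ∧ ∀ (P : ℤ[X]) (N : ℕ), 1 ≤ N →
        (((Icc 1 N).filter (fun n : ℕ => ¬ ∀ K : ℕ, (K : ℝ) ≤ (N : ℝ) ^ κ →
          ∀ I : Fin s → Set ℝ, (∀ i, (I i).OrdConnected) →
            |(boxCount I K (P.eval (w n)) : ℝ) - boxModel P I K| ≤
              C * ((K : ℝ) ^ (1 / 2 + δ) * √(1 + Real.log N)))).card : ℝ) ≤ C * (N : ℝ) ^ (1 - κ)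

open Classical in
/-- signs -/
def SignLaw (s : ℕ) (w : ℕ → ℤ) : Prop :=
  ∃ θ : ℝ, 0 < θ ∧ ∀ η ε : ℝ, 0 ≤ η → η ≤ 1 / 4 → 0 < ε → ∀ κ : ℤ, κ ≠ 0 →
      ∃ N₀ : ℕ, ∀ N : ℕ, N₀ ≤ N → ∀ c₀ : ℤ,
        (((Icc 1 N).filter (fun n : ℕ => ¬ ∀ K : ℕ, Real.log N ^ 2 ≤ K → (K : ℝ) ≤ (N : ℝ) ^ θ →
          ∀ σ : Fin s → ℝ, (∀ i, σ i = 1 ∨ σ i = -1) →
            ((1 / 4 - η) ^ s - ε) * K ≤ signCount s σ η K (c₀ + κ * w n))).card : ℝ) ≤ (N : ℝ) ^ (1 - θ)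

open Classical in
theorem boxes_of_ped {w : ℕ → ℤ} {ρ σ C₀ : ℝ} (hw : PED (hat w) ρ σ C₀) (s : ℕ) (hs : 1 ≤ s) : BoxLaw s w := by
  intro δ hδ
  obtain ⟨κ, C, h1, h2, h3, H⟩ := consec hw s hs δ hδ
  refine ⟨κ, C, h1, h2, h3, fun P N hN => ?_⟩
  have hE := H (fun p n => angle p (P.eval n)) (by
    intro p n
    apply angle_congr
    have e : (n + (p : ℤ)) - n = p := by ring
    have := P.sub_dvd_eval_sub (n + (p : ℤ)) n
    rwa [e] at this) N hN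
  refine le_trans (Nat.cast_le.2 (card_le_card fun n hn => ?_)) hE
  rw [mem_filter] at hn ⊢
  refine ⟨hn.1, fun hcon => hn.2 ?_⟩
  intro K hK I hI
  have h := hcon K hK I hI
  rw [sum_sub_distrib] at h
  have e1 : (boxCount I K (P.eval (w n)) : ℝ) = ∑ k ∈ range K,
      Pool.Agent.TH869.SQ.ind I (fun i : Fin s => angle (Pool.Agent.TH869.SQ.pr (k + i)) (P.eval (w n))) := by
    unfold boxCount Pool.Agent.TH869.SQ.ind Pool.Agent.TH869.SQ.pr
    rw [sum_boole]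
  have e2 : boxModel P I K = ∑ k ∈ range K, ∏ i : Fin s,
      Pool.Agent.TH869.SQ.mean (Pool.Agent.TH869.SQ.pr (k + i)) (fun t =>
        Pool.Agent.TH869.SQ.ind1 (I i) (angle (Pool.Agent.TH869.SQ.pr (k + i)) (P.eval (t : ℤ)))) := by
    unfold boxModel proportion Pool.Agent.TH869.SQ.mean Pool.Agent.TH869.SQ.ind1 Pool.Agent.TH869.SQ.pr
    refine sum_congr rfl fun k _ => prod_congr rfl fun i _ => ?_
    rw [sum_boole]
  rw [e1, e2]
  unfold Pool.Agent.TH869.SQ.lam at h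
  exact h

open Classical in
theorem signs_of_boxes {s : ℕ} (hs : 1 ≤ s) {w : ℕ → ℤ} (hB : BoxLaw s w) : SignLaw s w := by
  obtain ⟨κ₁, C₁, h1, h2, h3, H⟩ := hB (1 / 8) (by norm_num)
  refine ⟨κ₁ / 2, by positivity, fun η ε hη hη1 hε κ hκ => ?_⟩
  obtain ⟨k₁, hk₁⟩ := model_ge s hs η ε hη hη1 hε κ hκ
  have t1 : Tendsto (fun N : ℕ => (N : ℝ) ^ (κ₁ / 2)) atTop atTop :=
    (tendsto_rpow_atTop (by positivity)).comp tendsto_natCast_atTop_atTop
  have t2 : Tendsto (fun N : ℕ => Real.log N) atTop atTop := Real.tendsto_log_atTop.comp tendsto_natCast_atTop_atTop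
  have t3 : Tendsto (fun N : ℕ => Real.log N ^ (1 / 4 : ℝ)) atTop atTop := (tendsto_rpow_atTop (by norm_num)).comp t2
  have ev := (t1.eventually_ge_atTop C₁).and ((t2.eventually_ge_atTop (4 * k₁ / ε + k₁ + 1)).and
    (t3.eventually_ge_atTop (4 * C₁ * 2 / ε)))
  obtain ⟨N₀, hN₀⟩ := eventually_atTop.1 ev
  refine ⟨N₀ + 1, fun N hN c₀ => ?_⟩
  obtain ⟨q1, q2, q3⟩ := hN₀ N (by omega)
  have hN1 : (1 : ℝ) ≤ N := by exact_mod_cast (by omega : 1 ≤ N)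
  have hN0 : (0 : ℝ) < N := by linarith
  have hk0 : (0 : ℝ) ≤ k₁ := Nat.cast_nonneg _
  have hkε : 0 ≤ 4 * k₁ / ε := by positivity
  have hL1 : 1 ≤ Real.log N := by linarith
  have hmain := H (C c₀ + C κ * X) N (by omega)
  have hpow : C₁ * (N : ℝ) ^ (1 - κ₁) ≤ (N : ℝ) ^ (1 - κ₁ / 2) := by
    calc C₁ * (N : ℝ) ^ (1 - κ₁) ≤ (N : ℝ) ^ (κ₁ / 2) * (N : ℝ) ^ (1 - κ₁) := mul_le_mul_of_nonneg_right q1 (by positivity)
      _ = _ := by
          rw [← Real.rpow_add hN0]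
          congr 1
          ring
  refine le_trans (Nat.cast_le.2 (card_le_card fun n hn => ?_)) (hmain.trans hpow)
  rw [mem_filter] at hn ⊢
  refine ⟨hn.1, fun hcon => hn.2 ?_⟩
  intro K hK1 hK2 σ hσ
  have hL2 : Real.log N ≤ Real.log N ^ 2 := by nlinarith
  have hKL : Real.log N ≤ K := hL2.trans hK1
  have hK0 : (0 : ℝ) < K := by linarith
  have hb := hcon K (hK2.trans (Real.rpow_le_rpow_of_exponent_le hN1 (by linarith))) (fun i => side η (σ i))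
    (fun i => side_oc η (σ i))
  have hcount : boxCount (fun i => side η (σ i)) K ((C c₀ + C κ * X : ℤ[X]).eval (w n)) =
      signCount s σ η K (c₀ + κ * w n) := by
    have e : (C c₀ + C κ * X : ℤ[X]).eval (w n) = c₀ + κ * w n := by
      simp only [eval_add, eval_mul, eval_C, eval_X]
    rw [e]
    unfold boxCount signCount
    congr 1
    apply filter_congr
    intro k _
    exact forall_congr' fun i => side_iff η hη hη1 (σ i) (hσ i) _ (Nat.prime_nth_prime _).pos _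
  rw [hcount] at hb
  have hmod := hk₁ K (by
    have : (k₁ : ℝ) ≤ K := by linarith
    exact_mod_cast this) c₀ σ hσ
  -- the error term
  have herr : C₁ * ((K : ℝ) ^ (1 / 2 + 1 / 8 : ℝ) * √(1 + Real.log N)) ≤ ε / 4 * K := by
    have r1 : √(1 + Real.log N) ≤ 2 * Real.log N ^ (1 / 2 : ℝ) := by
      rw [← Real.sqrt_eq_rpow]
      have : 1 + Real.log N ≤ 4 * Real.log N := by linarith
      calc √(1 + Real.log N) ≤ √(4 * Real.log N) := Real.sqrt_le_sqrt this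
        _ = 2 * √(Real.log N) := by
            rw [Real.sqrt_mul (by norm_num), show (4 : ℝ) = 2 ^ 2 by norm_num, Real.sqrt_sq (by norm_num)]
    have r2 : Real.log N ^ (3 / 4 : ℝ) ≤ (K : ℝ) ^ (3 / 8 : ℝ) := by
      calc Real.log N ^ (3 / 4 : ℝ) = (Real.log N ^ 2) ^ (3 / 8 : ℝ) := by
            rw [← Real.rpow_natCast, ← Real.rpow_mul (by linarith)]
            norm_num
        _ ≤ _ := Real.rpow_le_rpow (by positivity) hK1 (by norm_num)
    have r3 : Real.log N ^ (1 / 2 : ℝ) * Real.log N ^ (1 / 4 : ℝ) = Real.log N ^ (3 / 4 : ℝ) := by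
      rw [← Real.rpow_add (by linarith)]
      norm_num
    have r4 : (K : ℝ) = (K : ℝ) ^ (1 / 2 + 1 / 8 : ℝ) * (K : ℝ) ^ (3 / 8 : ℝ) := by
      rw [← Real.rpow_add hK0]
      norm_num
    have r5 : C₁ * √(1 + Real.log N) ≤ ε / 4 * (K : ℝ) ^ (3 / 8 : ℝ) := by
      have r6 : 4 * C₁ * 2 / ε * Real.log N ^ (1 / 2 : ℝ) ≤ Real.log N ^ (1 / 2 : ℝ) * Real.log N ^ (1 / 4 : ℝ) := by
        rw [mul_comm]
        exact mul_le_mul_of_nonneg_left q3 (by positivity)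
      rw [r3] at r6
      have r7 := r6.trans r2
      have r8 : C₁ * (2 * Real.log N ^ (1 / 2 : ℝ)) = ε / 4 * (4 * C₁ * 2 / ε * Real.log N ^ (1 / 2 : ℝ)) := by field_simp
      calc C₁ * √(1 + Real.log N) ≤ C₁ * (2 * Real.log N ^ (1 / 2 : ℝ)) := mul_le_mul_of_nonneg_left r1 (by linarith)
        _ = _ := r8
        _ ≤ _ := mul_le_mul_of_nonneg_left r7 (by positivity)
    calc C₁ * ((K : ℝ) ^ (1 / 2 + 1 / 8 : ℝ) * √(1 + Real.log N)) =
          (K : ℝ) ^ (1 / 2 + 1 / 8 : ℝ) * (C₁ * √(1 + Real.log N)) := by ring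
      _ ≤ (K : ℝ) ^ (1 / 2 + 1 / 8 : ℝ) * (ε / 4 * (K : ℝ) ^ (3 / 8 : ℝ)) := mul_le_mul_of_nonneg_left r5 (by positivity)
      _ = ε / 4 * ((K : ℝ) ^ (1 / 2 + 1 / 8 : ℝ) * (K : ℝ) ^ (3 / 8 : ℝ)) := by ring
      _ = ε / 4 * K := by rw [← r4]
  have e2 : (k₁ : ℝ) ≤ ε / 4 * K := by
    have h4 : (4 * k₁ / ε : ℝ) ≤ K := by linarith
    rw [div_le_iff₀ hε] at h4
    linarith
  have e3 : (1 / 4 - η) ^ s ≤ 1 := pow_le_one₀ (by linarith) (by linarith)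
  have e4 : ((1 / 4 - η) ^ s - ε / 4) * k₁ ≤ ε / 4 * K := by nlinarith
  have hb2 := (abs_le.1 hb).1
  nlinarith

end Pool.Agent.L5helper14.MetK
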