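import Pool.Agent.N54.ME.Three
import Pool.Agent.N193.PS.Pe2

set_option autoImplicit false

/-!
Sequences of integers which are well distributed in residue classes (over the integers and over the primes) have a
power-saving distribution in the sense of `Pool.Agent.N193.PS.PED`.
-/

namespace Pool.Agent.L5helper14.MetK

open Finset Filter
open Pool.Agent.TH869.EVF (Per)
open Pool.Agent.TH869.SQ (per_mod ind ind1 mean pr lam pr_prime)
open Pool.Agent.N193.PS (PED)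
open Pool.Agent.N54.ME (WS many_primes)
open Pool.Agent.N666.TM (Well)
open Pool.Agent.Y722.HS (red)

lemma well_sum (s : Finset ℕ) (x : ℕ → Fin 1 → ℤ) (H M : ℕ) (hw : Well s x H) (hM : 1 ≤ M) (hMH : M ≤ 2 * H + 1)
    (F : ℕ → ℝ) (hF : ∀ n, |F n| ≤ 1) (h0 : ∑ t ∈ range M, F t = 0) :
    |∑ n ∈ s, F ((x n 0 % (M : ℤ)).toNat)| ≤ s.card / (2 * H + 1) := by
  classical
  haveI : NeZero M := ⟨by omega⟩
  have hs : (0 : ℝ) < s.card := by exact_mod_cast hw.pos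
  have hM0 : (0 : ℤ) < M := by exact_mod_cast hM
  have hMr : (0 : ℝ) < M := by exact_mod_cast hM
  have hmaps : ∀ n ∈ s, (x n 0 % (M : ℤ)).toNat ∈ range M := by
    intro n _
    have h1 := Int.emod_nonneg (x n 0) hM0.ne'
    have h2 := Int.emod_lt_of_pos (x n 0) hM0
    rw [mem_range]
    omega
  have e1 : ∑ n ∈ s, F ((x n 0 % (M : ℤ)).toNat) =
      ∑ t ∈ range M, ((#{n ∈ s | (x n 0 % (M : ℤ)).toNat = t} : ℕ) : ℝ) * F t := by
    rw [← sum_fiberwise_of_maps_to hmaps]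
    refine sum_congr rfl fun t _ => ?_
    rw [sum_congr rfl (g := fun _ => F t) (fun n hn => by rw [(mem_filter.1 hn).2]), sum_const, nsmul_eq_mul]
  have e2 : ∀ t ∈ range M, |((#{n ∈ s | (x n 0 % (M : ℤ)).toNat = t} : ℕ) : ℝ) - s.card / M| ≤
      s.card / (2 * H + 1) / M := by
    intro t ht
    rw [mem_range] at ht
    have h1 := hw.dist M hM hMH (fun _ => ((t : ℕ) : ZMod M))
    have h2 : {n ∈ s | red M (x n) = fun _ => ((t : ℕ) : ZMod M)} = {n ∈ s | (x n 0 % (M : ℤ)).toNat = t} := by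
      apply filter_congr
      intro n _
      have h3 := Int.emod_nonneg (x n 0) hM0.ne'
      have h4 := Int.emod_lt_of_pos (x n 0) hM0
      constructor
      · intro h
        have h5 : ((x n 0 : ℤ) : ZMod M) = ((t : ℤ) : ZMod M) := by
          have := congrFun h 0
          simpa [red] using this
        rw [ZMod.intCast_eq_intCast_iff] at h5
        have h6 : x n 0 % (M : ℤ) = (t : ℤ) % M := h5
        have h7 : (t : ℤ) % M = t := Int.emod_eq_of_lt (by positivity) (by exact_mod_cast ht)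
        omega
      · intro h
        funext i
        rw [Subsingleton.elim i 0]
        show ((x n 0 : ℤ) : ZMod M) = ((t : ℕ) : ZMod M)
        have h5 : ((x n 0 : ℤ) : ZMod M) = ((t : ℤ) : ZMod M) := by
          rw [ZMod.intCast_eq_intCast_iff]
          show x n 0 % (M : ℤ) = (t : ℤ) % M
          have h7 : (t : ℤ) % M = t := Int.emod_eq_of_lt (by positivity) (by exact_mod_cast ht)
          omega
        rw [h5]
        simp
    rw [h2, Fintype.card_fin, pow_one] at h1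
    have h3 : ((#{n ∈ s | (x n 0 % (M : ℤ)).toNat = t} : ℕ) : ℝ) - s.card / M =
        s.card * (((#{n ∈ s | (x n 0 % (M : ℤ)).toNat = t} : ℕ) : ℝ) / s.card - 1 / M) := by
      field_simp
    rw [h3, abs_mul, abs_of_pos hs]
    calc (s.card : ℝ) * |((#{n ∈ s | (x n 0 % (M : ℤ)).toNat = t} : ℕ) : ℝ) / s.card - 1 / M| ≤
          s.card * (1 / (2 * H + 1) * (1 / M)) := mul_le_mul_of_nonneg_left h1 hs.le
      _ = _ := by ring
  have e3 : ∑ n ∈ s, F ((x n 0 % (M : ℤ)).toNat) =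
      ∑ t ∈ range M, (((#{n ∈ s | (x n 0 % (M : ℤ)).toNat = t} : ℕ) : ℝ) - s.card / M) * F t := by
    rw [e1]
    have : ∑ t ∈ range M, ((s.card : ℝ) / M) * F t = 0 := by
      rw [← mul_sum, h0, mul_zero]
    rw [← sub_zero (∑ t ∈ range M, ((#{n ∈ s | (x n 0 % (M : ℤ)).toNat = t} : ℕ) : ℝ) * F t), ← this,
      ← sum_sub_distrib]
    refine sum_congr rfl fun t _ => ?_
    ring
  rw [e3]
  refine (abs_sum_le_sum_abs _ _).trans ?_
  calc ∑ t ∈ range M, |(((#{n ∈ s | (x n 0 % (M : ℤ)).toNat = t} : ℕ) : ℝ) - s.card / M) * F t| ≤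
        ∑ t ∈ range M, (s.card : ℝ) / (2 * H + 1) / M := by
        refine sum_le_sum fun t ht => ?_
        rw [abs_mul]
        calc _ ≤ |((#{n ∈ s | (x n 0 % (M : ℤ)).toNat = t} : ℕ) : ℝ) - s.card / M| * 1 :=
              mul_le_mul_of_nonneg_left (hF t) (abs_nonneg _)
          _ ≤ _ := by rw [mul_one]; exact e2 t ht
    _ = s.card / (2 * H + 1) := by
        rw [sum_const, card_range, nsmul_eq_mul]
        field_simp

lemma dyadic (a : ℕ → ℝ) (ha : ∀ n, |a n| ≤ 1) (N₁ : ℕ) (hN₁ : 1 ≤ N₁) (κ : ℝ) (hκ1 : κ ≤ 1 / 2)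
    (h : ∀ N : ℕ, N₁ ≤ N → |∑ n ∈ Ioc N (2 * N), a n| ≤ (N : ℝ) ^ (1 - κ)) :
    ∀ Y : ℕ, |∑ n ∈ Ioc 0 Y, a n| ≤ 2 * N₁ + 1 + 10 * (Y : ℝ) ^ (1 - κ) := by
  intro Y
  induction Y using Nat.strong_induction_on with
  | _ Y ih =>
    by_cases hY : Y ≤ 2 * N₁ + 1
    · have h1 : |∑ n ∈ Ioc 0 Y, a n| ≤ Y := by
        refine (abs_sum_le_sum_abs _ _).trans ?_
        calc ∑ n ∈ Ioc 0 Y, |a n| ≤ ∑ n ∈ Ioc 0 Y, (1 : ℝ) := sum_le_sum fun n _ => ha n
          _ = Y := by simp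
      have h2 : (Y : ℝ) ≤ 2 * N₁ + 1 := by exact_mod_cast hY
      have h3 : 0 ≤ (Y : ℝ) ^ (1 - κ) := by positivity
      linarith
    · push Not at hY
      obtain ⟨N, hN⟩ : ∃ N, N = Y / 2 := ⟨_, rfl⟩
      have hNN : N₁ ≤ N := by omega
      have hN0 : (1 : ℝ) ≤ N := by exact_mod_cast (by omega : 1 ≤ N)
      have i1 := ih N (by omega)
      have i2 := h N hNN
      have i3 : |∑ n ∈ Ioc (2 * N) Y, a n| ≤ 1 := by
        refine (abs_sum_le_sum_abs _ _).trans ?_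
        calc ∑ n ∈ Ioc (2 * N) Y, |a n| ≤ ∑ n ∈ Ioc (2 * N) Y, (1 : ℝ) := sum_le_sum fun n _ => ha n
          _ = ((Y - 2 * N : ℕ) : ℝ) := by simp
          _ ≤ 1 := by exact_mod_cast (by omega : Y - 2 * N ≤ 1)
      have e : ∑ n ∈ Ioc 0 Y, a n = ∑ n ∈ Ioc 0 N, a n + ∑ n ∈ Ioc N (2 * N), a n + ∑ n ∈ Ioc (2 * N) Y, a n := by
        rw [sum_Ioc_consecutive _ (by omega) (by omega), sum_Ioc_consecutive _ (by omega) (by omega)]
      rw [e]
      have t1 := abs_add_le (∑ n ∈ Ioc 0 N, a n + ∑ n ∈ Ioc N (2 * N), a n) (∑ n ∈ Ioc (2 * N) Y, a n)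
      have t2 := abs_add_le (∑ n ∈ Ioc 0 N, a n) (∑ n ∈ Ioc N (2 * N), a n)
      obtain ⟨Z, hZ⟩ : ∃ Z, Z = (N : ℝ) ^ (1 - κ) := ⟨_, rfl⟩
      have hZ1 : 1 ≤ Z := by rw [hZ]; exact Real.one_le_rpow hN0 (by linarith)
      have hYZ : 1.4 * Z ≤ (Y : ℝ) ^ (1 - κ) := by
        have k1 : (2 * (N : ℝ)) ^ (1 - κ) ≤ (Y : ℝ) ^ (1 - κ) := by
          apply Real.rpow_le_rpow (by positivity) _ (by linarith)
          exact_mod_cast (by omega : 2 * N ≤ Y)
        rw [Real.mul_rpow (by norm_num) (by linarith), ← hZ] at k1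
        have k2 : (1.4 : ℝ) ≤ 2 ^ (1 - κ) := by
          calc (1.4 : ℝ) ≤ √2 := Real.le_sqrt_of_sq_le (by norm_num)
            _ = 2 ^ (1 / 2 : ℝ) := Real.sqrt_eq_rpow _
            _ ≤ _ := Real.rpow_le_rpow_of_exponent_le (by norm_num) (by linarith)
        nlinarith
      rw [← hZ] at i1 i2
      linarith

/-- nonnegative integers in the same residue classes -/
noncomputable def hat (w : ℕ → ℤ) (k : ℕ) : ℕ := (w k + |w k| * (k.factorial : ℤ)).toNat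

lemma hat_cast (w : ℕ → ℤ) (k : ℕ) : ((hat w k : ℕ) : ℤ) = w k + |w k| * (k.factorial : ℤ) := by
  unfold hat
  apply Int.toNat_of_nonneg
  have h1 : (1 : ℤ) ≤ (k.factorial : ℤ) := by exact_mod_cast Nat.factorial_pos k
  have h2 := neg_abs_le (w k)
  nlinarith [abs_nonneg (w k)]

lemma hat_mod (w : ℕ → ℤ) (k M : ℕ) (hM : 1 ≤ M) (hk : M ≤ k) : hat w k % M = (w k % (M : ℤ)).toNat := by
  have hM0 : (0 : ℤ) < M := by exact_mod_cast hM
  have h1 : (M : ℤ) ∣ (k.factorial : ℤ) := by exact_mod_cast Nat.dvd_factorial hM hk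
  obtain ⟨c, hc⟩ := h1
  have h2 : ((hat w k % M : ℕ) : ℤ) = w k % (M : ℤ) := by
    push_cast
    rw [hat_cast, hc, show w k + |w k| * ((M : ℤ) * c) = w k + M * (|w k| * c) by ring, Int.add_mul_emod_self_left]
  have h3 := Int.emod_nonneg (w k) hM0.ne'
  omega

lemma ped_of (w : ℕ → ℤ) (κ₀ κ C : ℝ) (hκ₀ : 0 < κ₀) (hκ₀1 : κ₀ ≤ 1) (hκ : 0 < κ) (hκ1 : κ ≤ 1) (hC : 1 ≤ C)
    (h : ∀ N : ℕ, 1 ≤ N → ∀ M : ℕ, 1 ≤ M → (M : ℝ) ≤ (N : ℝ) ^ κ₀ → ∀ F : ℕ → ℝ, (∀ n, |F n| ≤ 1) →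
      ∑ t ∈ range M, F t = 0 → |∑ n ∈ range (N + 1), F ((w n % (M : ℤ)).toNat)| ≤ C * (N : ℝ) ^ (1 - κ)) :
    PED (hat w) κ₀ κ (C + 2) := by
  refine ⟨hκ₀, hκ₀1, hκ, hκ1, by linarith, fun N hN M hM hMN F hper hF h0 => ?_⟩
  have h1 := h N hN M hM hMN F hF h0
  have hMr : (1 : ℝ) ≤ M := by exact_mod_cast hM
  have hNr : (1 : ℝ) ≤ N := by exact_mod_cast hN
  have hP : 1 ≤ (N : ℝ) ^ (1 - κ) := Real.one_le_rpow hNr (by linarith)
  have e : ∀ n, M ≤ n → F (hat w n) = F ((w n % (M : ℤ)).toNat) := by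
    intro n hn
    rw [← per_mod hper, hat_mod w n M hM hn]
  have h2 : |∑ n ∈ range (N + 1), (F (hat w n) - F ((w n % (M : ℤ)).toNat))| ≤ 2 * M := by
    refine (abs_sum_le_sum_abs _ _).trans ?_
    have h3 : ∀ n ∈ range (N + 1), |F (hat w n) - F ((w n % (M : ℤ)).toNat)| ≤ if n ∈ range M then (2 : ℝ) else 0 := by
      intro n _
      split_ifs with h4
      · have h5 := abs_sub (F (hat w n)) (F ((w n % (M : ℤ)).toNat))
        have h6 := hF (hat w n)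
        have h7 := hF ((w n % (M : ℤ)).toNat)
        linarith
      · rw [mem_range, not_lt] at h4
        rw [e n h4, sub_self, abs_zero]
    refine (sum_le_sum h3).trans ?_
    rw [← sum_filter, sum_const, nsmul_eq_mul, mul_comm]
    apply mul_le_mul_of_nonneg_left _ (by norm_num)
    have h4 : ((range (N + 1)).filter (fun n => n ∈ range M)).card ≤ M := by
      refine (card_le_card (t := range M) fun n hn => (mem_filter.1 hn).2).trans ?_
      rw [card_range]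
    exact_mod_cast h4
  rw [sum_sub_distrib] at h2
  have h5 : |∑ n ∈ range (N + 1), F (hat w n)| ≤ C * (N : ℝ) ^ (1 - κ) + 2 * M := by
    have := abs_sub_abs_le_abs_sub (∑ n ∈ range (N + 1), F (hat w n)) (∑ n ∈ range (N + 1), F ((w n % (M : ℤ)).toNat))
    linarith
  refine h5.trans ?_
  have k1 : C * (N : ℝ) ^ (1 - κ) ≤ M * (C * (N : ℝ) ^ (1 - κ)) := by
    have : 0 ≤ C * (N : ℝ) ^ (1 - κ) := by positivity
    nlinarith
  have k2 : (2 : ℝ) * M ≤ M * (2 * (N : ℝ) ^ (1 - κ)) := by nlinarith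
  calc C * (N : ℝ) ^ (1 - κ) + 2 * M ≤ M * (C * (N : ℝ) ^ (1 - κ)) + M * (2 * (N : ℝ) ^ (1 - κ)) := add_le_add k1 k2
    _ = _ := by ring

end Pool.Agent.L5helper14.MetK
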