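import Pool.Agent.L5helper14.MetK.Ped

set_option autoImplicit false

/-!
Well distributed sequences: the distribution along the integers and along the primes.
-/

namespace Pool.Agent.L5helper14.MetK

open Finset Filter
open Pool.Agent.TH869.SQ (pr pr_prime)
open Pool.Agent.N193.PS (PED)
open Pool.Agent.N54.ME (WS many_primes)
open Pool.Agent.N666.TM (Well)

lemma upto (x : ℕ → Fin 1 → ℤ) (Q : ℕ → Prop) [DecidablePred Q] (κ : ℝ) (hκ : 0 < κ) (hκ1 : κ ≤ 1 / 2) (N₀ : ℕ)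
    (h : ∀ N : ℕ, N₀ ≤ N → ∀ H : ℕ, (H : ℝ) ≤ (N : ℝ) ^ κ → Well ((Ioc N (2 * N)).filter Q) x H)
    (M : ℕ) (hM : 1 ≤ M) (F : ℕ → ℝ) (hF : ∀ n, |F n| ≤ 1) (h0 : ∑ t ∈ range M, F t = 0) (Y : ℕ) :
    |∑ n ∈ (Ioc 0 Y).filter Q, F ((x n 0 % (M : ℤ)).toNat)| ≤
      2 * N₀ + 5 + 2 * (M : ℝ) ^ (1 / κ) + 10 * (Y : ℝ) ^ (1 - κ) := by
  obtain ⟨N₁, hN₁⟩ : ∃ N₁ : ℕ, N₁ = N₀ + ⌈(M : ℝ) ^ (1 / κ)⌉₊ + 1 := ⟨_, rfl⟩
  have hM0 : (0 : ℝ) ≤ M := Nat.cast_nonneg _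
  have hMp : 0 ≤ (M : ℝ) ^ (1 / κ) := by positivity
  have h1 := dyadic (fun n => if Q n then F ((x n 0 % (M : ℤ)).toNat) else 0) (by
    intro n
    show |if Q n then F ((x n 0 % (M : ℤ)).toNat) else 0| ≤ 1
    split_ifs
    · exact hF _
    · simp) N₁ (by omega) κ hκ1 (by
    intro N hN
    rw [← sum_filter]
    have hNr : (M : ℝ) ^ (1 / κ) ≤ N := (Nat.le_ceil _).trans (by exact_mod_cast (by omega : ⌈(M : ℝ) ^ (1 / κ)⌉₊ ≤ N))
    have hN1 : (1 : ℝ) ≤ N := by exact_mod_cast (by omega : 1 ≤ N)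
    have hN0 : (0 : ℝ) < N := by linarith
    have hMN : (M : ℝ) ≤ (N : ℝ) ^ κ := by
      calc (M : ℝ) = ((M : ℝ) ^ (1 / κ)) ^ κ := by
            rw [← Real.rpow_mul hM0, one_div_mul_cancel hκ.ne', Real.rpow_one]
        _ ≤ _ := Real.rpow_le_rpow hMp hNr hκ.le
    obtain ⟨H, hH⟩ : ∃ H : ℕ, H = ⌊(N : ℝ) ^ κ⌋₊ := ⟨_, rfl⟩
    have hH1 : (H : ℝ) ≤ (N : ℝ) ^ κ := by rw [hH]; exact Nat.floor_le (by positivity)
    have hH2 : (N : ℝ) ^ κ < H + 1 := by rw [hH]; exact Nat.lt_floor_add_one _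
    have hMH : M ≤ 2 * H + 1 := by
      have : (M : ℝ) < H + 1 := by linarith
      have : M < H + 1 := by exact_mod_cast this
      omega
    have h2 := well_sum _ x H M (h N (by omega) H hH1) hM hMH F hF h0
    refine h2.trans ?_
    have hc : (((Ioc N (2 * N)).filter Q).card : ℝ) ≤ N := by
      have : ((Ioc N (2 * N)).filter Q).card ≤ N := by
        refine (card_filter_le _ _).trans ?_
        rw [Nat.card_Ioc]
        omega
      exact_mod_cast this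
    have hNκ : 0 < (N : ℝ) ^ κ := by positivity
    calc (((Ioc N (2 * N)).filter Q).card : ℝ) / (2 * H + 1) ≤ N / (N : ℝ) ^ κ := by
          apply div_le_div₀ hN0.le hc hNκ
          have : (0 : ℝ) ≤ H := Nat.cast_nonneg _
          linarith
      _ = _ := by rw [Real.rpow_sub hN0, Real.rpow_one]) Y
  rw [← sum_filter] at h1
  refine h1.trans ?_
  have h2 : (N₁ : ℝ) ≤ N₀ + ((M : ℝ) ^ (1 / κ) + 1) + 1 := by
    rw [hN₁]
    push_cast
    have := Nat.ceil_lt_add_one hMp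
    linarith
  linarith

lemma pow_half (κ : ℝ) (hκ : 0 < κ) (N M : ℕ) (hMN : (M : ℝ) ≤ (N : ℝ) ^ (κ / 2)) :
    (M : ℝ) ^ (1 / κ) ≤ (N : ℝ) ^ (1 / 2 : ℝ) := by
  have hN : (0 : ℝ) ≤ N := Nat.cast_nonneg _
  calc (M : ℝ) ^ (1 / κ) ≤ ((N : ℝ) ^ (κ / 2)) ^ (1 / κ) :=
        Real.rpow_le_rpow (Nat.cast_nonneg _) hMN (by positivity)
    _ = (N : ℝ) ^ (1 / 2 : ℝ) := by
        rw [← Real.rpow_mul hN]
        congr 1
        field_simp

lemma ws_mono (x : ℕ → Fin 1 → ℤ) (κ κ' : ℝ) (h : κ' ≤ κ) (hx : WS x κ) : WS x κ' := by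
  obtain ⟨N₀, hN₀⟩ := hx
  refine ⟨N₀ + 1, fun N hN H hH => hN₀ N (by omega) H (hH.trans ?_)⟩
  exact Real.rpow_le_rpow_of_exponent_le (by exact_mod_cast (by omega : 1 ≤ N)) h

/-- along the integers -/
theorem ped_ints (x : ℕ → Fin 1 → ℤ) (κ : ℝ) (hκ : 0 < κ) (hκ1 : κ ≤ 1 / 2) (hx : WS x κ) :
    ∃ κ₀ κ₁ C : ℝ, PED (hat (fun n => x n 0)) κ₀ κ₁ C := by
  obtain ⟨N₀, hN₀⟩ := hx
  have hN₀0 : (0 : ℝ) ≤ N₀ := Nat.cast_nonneg _
  refine ⟨κ / 2, κ, _, ped_of _ (κ / 2) κ (2 * N₀ + 18) (by positivity) (by linarith) hκ (by linarith) (by linarith)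
    fun N hN M hM hMN F hF h0 => ?_⟩
  have h1 := upto x (fun _ => True) κ hκ hκ1 N₀ (fun N hN H hH => by
    rw [Finset.filter_true]
    exact (hN₀ N hN H hH).1) M hM F hF h0 N
  rw [Finset.filter_true] at h1
  have hNr : (1 : ℝ) ≤ N := by exact_mod_cast hN
  have hP : 1 ≤ (N : ℝ) ^ (1 - κ) := Real.one_le_rpow hNr (by linarith)
  have hQ : (N : ℝ) ^ (1 / 2 : ℝ) ≤ (N : ℝ) ^ (1 - κ) := Real.rpow_le_rpow_of_exponent_le hNr (by linarith)
  have hM2 := pow_half κ hκ N M hMN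
  have e : range (N + 1) = insert 0 (Ioc 0 N) := by
    ext n
    rw [mem_range, mem_insert, mem_Ioc]
    omega
  rw [e, sum_insert (by simp)]
  refine (abs_add_le _ _).trans ?_
  have h3 := hF ((x 0 0 % (M : ℤ)).toNat)
  nlinarith

lemma pr_bound (ε : ℝ) (hε : 0 < ε) (hε1 : ε < 1) :
    ∃ C : ℝ, 1 ≤ C ∧ ∀ K : ℕ, 1 ≤ K → (pr K : ℝ) ≤ C * (2 * K : ℝ) ^ (1 / (1 - ε)) := by
  obtain ⟨N₀, hN₀⟩ := many_primes ε hε
  refine ⟨2 * N₀ + 6, by have : (0 : ℝ) ≤ N₀ := Nat.cast_nonneg _; linarith, fun K hK => ?_⟩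
  have hKr : (1 : ℝ) ≤ K := by exact_mod_cast hK
  have hp2 := (pr_prime K).two_le
  have hE : (0 : ℝ) < 1 - ε := by linarith
  have hP : 1 ≤ (2 * K : ℝ) ^ (1 / (1 - ε)) := Real.one_le_rpow (by linarith) (by positivity)
  obtain ⟨N, hN⟩ : ∃ N, N = (pr K - 1) / 2 := ⟨_, rfl⟩
  have hprN : (pr K : ℝ) ≤ 2 * N + 2 := by exact_mod_cast (by omega : pr K ≤ 2 * N + 2)
  by_cases hNN : N₀ ≤ N
  · have h1 := hN₀ N hNN
    have h2 : ((Ioc N (2 * N)).filter Nat.Prime).card ≤ K := by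
      have h3 : (Ioc N (2 * N)).filter Nat.Prime ⊆ (range K).image pr := by
        intro p hp
        rw [mem_filter, mem_Ioc] at hp
        rw [mem_image]
        refine ⟨Nat.count Nat.Prime p, ?_, Nat.nth_count hp.2⟩
        rw [mem_range]
        have h4 : Nat.nth Nat.Prime (Nat.count Nat.Prime p) < Nat.nth Nat.Prime K := by
          rw [Nat.nth_count hp.2]
          have : p < pr K := by omega
          exact this
        exact (Nat.nth_lt_nth Nat.infinite_setOfPred_prime).1 h4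
      refine (card_le_card h3).trans ?_
      refine card_image_le.trans ?_
      rw [card_range]
    have h3 : (N : ℝ) ^ (1 - ε) ≤ K := h1.trans (by exact_mod_cast h2)
    have h4 : (N : ℝ) ≤ (2 * K : ℝ) ^ (1 / (1 - ε)) := by
      calc (N : ℝ) = ((N : ℝ) ^ (1 - ε)) ^ (1 / (1 - ε)) := by
            rw [← Real.rpow_mul (Nat.cast_nonneg _), mul_one_div_cancel hE.ne', Real.rpow_one]
        _ ≤ _ := Real.rpow_le_rpow (by positivity) (by linarith) (by positivity)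
    have hN₀0 : (0 : ℝ) ≤ N₀ := Nat.cast_nonneg _
    nlinarith
  · push Not at hNN
    have h1 : (N : ℝ) ≤ N₀ := by exact_mod_cast hNN.le
    have hN₀0 : (0 : ℝ) ≤ N₀ := Nat.cast_nonneg _
    nlinarith

/-- along the primes -/
theorem ped_primes (x : ℕ → Fin 1 → ℤ) (κ : ℝ) (hκ : 0 < κ) (hκ1 : κ ≤ 1 / 2) (hx : WS x κ) :
    ∃ κ₀ κ₁ C : ℝ, PED (hat (fun k => x (pr k) 0)) κ₀ κ₁ C := by
  obtain ⟨N₀, hN₀⟩ := hx
  have hN₀0 : (0 : ℝ) ≤ N₀ := Nat.cast_nonneg _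
  obtain ⟨C₃, hC₃, hpr⟩ := pr_bound (κ / 2) (by positivity) (by linarith)
  refine ⟨κ / 2, κ / 2, _, ped_of _ (κ / 2) (κ / 2) (2 * N₀ + 7 + 20 * C₃) (by positivity) (by linarith) (by positivity)
    (by linarith) (by linarith) fun K hK M hM hMN F hF h0 => ?_⟩
  have h1 := upto x Nat.Prime κ hκ hκ1 N₀ (fun N hN H hH => (hN₀ N hN H hH).2) M hM F hF h0 (pr K)
  have hKr : (1 : ℝ) ≤ K := by exact_mod_cast hK
  have hP : 1 ≤ (K : ℝ) ^ (1 - κ / 2) := Real.one_le_rpow hKr (by linarith)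
  have hQ : (K : ℝ) ^ (1 / 2 : ℝ) ≤ (K : ℝ) ^ (1 - κ / 2) := Real.rpow_le_rpow_of_exponent_le hKr (by linarith)
  have hM2 := pow_half κ hκ K M hMN
  have e : (Ioc 0 (pr K)).filter Nat.Prime = (range (K + 1)).image pr := by
    ext p
    rw [mem_filter, mem_Ioc, mem_image]
    constructor
    · rintro ⟨⟨_, h2⟩, h3⟩
      refine ⟨Nat.count Nat.Prime p, ?_, Nat.nth_count h3⟩
      rw [mem_range, Nat.lt_succ_iff]
      have h4 : Nat.nth Nat.Prime (Nat.count Nat.Prime p) ≤ Nat.nth Nat.Prime K := by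
        rw [Nat.nth_count h3]
        exact h2
      exact (Nat.nth_le_nth Nat.infinite_setOfPred_prime).1 h4
    · rintro ⟨k, hk, rfl⟩
      rw [mem_range, Nat.lt_succ_iff] at hk
      exact ⟨⟨(pr_prime k).pos, (Nat.nth_le_nth Nat.infinite_setOfPred_prime).2 hk⟩, pr_prime k⟩
  have hinj : ∀ a ∈ range (K + 1), ∀ b ∈ range (K + 1), pr a = pr b → a = b :=
    fun a _ b _ hab => Nat.nth_injective Nat.infinite_setOfPred_prime hab
  rw [e, sum_image hinj] at h1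
  refine h1.trans ?_
  have h2 : (pr K : ℝ) ^ (1 - κ) ≤ 2 * C₃ * (K : ℝ) ^ (1 - κ / 2) := by
    have hE : (0 : ℝ) < 1 - κ / 2 := by linarith
    have h3 := Real.rpow_le_rpow (Nat.cast_nonneg (pr K)) (hpr K hK) (show 0 ≤ 1 - κ by linarith)
    refine h3.trans ?_
    rw [Real.mul_rpow (by linarith) (by positivity), ← Real.rpow_mul (by positivity)]
    have h4 : C₃ ^ (1 - κ) ≤ C₃ := by
      calc C₃ ^ (1 - κ) ≤ C₃ ^ (1 : ℝ) := Real.rpow_le_rpow_of_exponent_le hC₃ (by linarith)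
        _ = C₃ := Real.rpow_one _
    have h5 : 1 / (1 - κ / 2) * (1 - κ) ≤ 1 - κ / 2 := by
      rw [one_div, inv_mul_le_iff₀ hE]
      nlinarith
    have h6 : (2 * K : ℝ) ^ (1 / (1 - κ / 2) * (1 - κ)) ≤ (2 * K : ℝ) ^ (1 - κ / 2) :=
      Real.rpow_le_rpow_of_exponent_le (by linarith) h5
    have h7 : (2 * K : ℝ) ^ (1 - κ / 2) ≤ 2 * (K : ℝ) ^ (1 - κ / 2) := by
      rw [Real.mul_rpow (by norm_num) (by linarith)]
      apply mul_le_mul_of_nonneg_right _ (by positivity)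
      calc (2 : ℝ) ^ (1 - κ / 2) ≤ 2 ^ (1 : ℝ) := Real.rpow_le_rpow_of_exponent_le (by norm_num) (by linarith)
        _ = 2 := Real.rpow_one _
    calc C₃ ^ (1 - κ) * (2 * K : ℝ) ^ (1 / (1 - κ / 2) * (1 - κ)) ≤ C₃ * (2 * (K : ℝ) ^ (1 - κ / 2)) :=
          mul_le_mul h4 (h6.trans h7) (by positivity) (by linarith)
      _ = _ := by ring
  nlinarith

end Pool.Agent.L5helper14.MetK
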